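import Mathlib

/-! A Doi cocycle deformation that is not a deformation via a matched pair. -/

set_option autoImplicit false

namespace Pool.Agent.Results.MP_16410b_al.DoiCex

open TensorProduct Coalgebra

section defs
variable {k : Type} [Field k]

/-- Convolution `c ↦ f(c₍₁₎) g(c₍₂₎)` of linear maps from a coalgebra to an algebra. -/
noncomputable def cv {C B : Type} [AddCommMonoid C] [Module k C] [Coalgebra k C] [Ring B]
    [Algebra k B] (f g : C →ₗ[k] B) : C →ₗ[k] B :=
  LinearMap.mul' k B ∘ₗ TensorProduct.map f g ∘ₗ comul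

variable {H : Type} [Ring H] [HopfAlgebra k H]

/-- `s` is a normalized Sweedler cocycle on `H` with convolution inverse `t`. -/
def IsCocycle (s t : H ⊗[k] H →ₗ[k] k) : Prop :=
  cv s t = counit ∧ cv t s = counit ∧
    (∀ h g l : H, cv s (s ∘ₗ (TensorProduct.mk k H H).flip l ∘ₗ LinearMap.mul' k H) (h ⊗ₜ g) =
      cv s (s ∘ₗ TensorProduct.mk k H H h ∘ₗ LinearMap.mul' k H) (g ⊗ₜ l)) ∧
    ∀ h : H, s (h ⊗ₜ 1) = counit h ∧ s (1 ⊗ₜ h) = counit h

/-- The Doi product `s(h₍₁₎, g₍₁₎) h₍₂₎ g₍₂₎ t(h₍₃₎, g₍₃₎)`. -/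
noncomputable def doiMul (s t : H ⊗[k] H →ₗ[k] k) (h g : H) : H :=
  cv (cv (Algebra.linearMap k H ∘ₗ s) (LinearMap.mul' k H)) (Algebra.linearMap k H ∘ₗ t) (h ⊗ₜ g)

variable {A : Type} [Ring A] [HopfAlgebra k A]

/-- `r(h₍₁₎) ⊗ h₍₂₎ = r(h₍₂₎) ⊗ h₍₁₎`. -/
def Cocentral (r : H →ₗ[k] A) : Prop :=
  ∀ h : H, r.rTensor H (comul h) = r.rTensor H (TensorProduct.comm k H H (comul h))

/-- The product `(h ◁ r(g₍₁₎)) g₍₂₎` of the `r`-deformation. -/
noncomputable def defMul (act : H ⊗[k] A →ₗ[k] H) (r : H →ₗ[k] A) (h g : H) : H :=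
  cv (act ∘ₗ TensorProduct.mk k H A h ∘ₗ r) LinearMap.id g

end defs

/-- Sweedler's four-dimensional algebra. -/
def S : Type := QuaternionAlgebra ℚ 1 0 0

instance : Ring S := inferInstanceAs (Ring (QuaternionAlgebra ℚ 1 0 0))
instance : Algebra ℚ S := inferInstanceAs (Algebra ℚ (QuaternionAlgebra ℚ 1 0 0))

def g : S := (⟨0, 1, 0, 0⟩ : QuaternionAlgebra ℚ 1 0 0)
def x : S := (⟨0, 0, 1, 0⟩ : QuaternionAlgebra ℚ 1 0 0)
def y : S := (⟨0, 0, 0, 1⟩ : QuaternionAlgebra ℚ 1 0 0)

@[simp] theorem gg : g * g = 1 := QuaternionAlgebra.ext (by decide +kernel) (by decide +kernel)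
  (by decide +kernel) (by decide +kernel)
@[simp] theorem gx : g * x = y := QuaternionAlgebra.ext (by decide +kernel) (by decide +kernel)
  (by decide +kernel) (by decide +kernel)
@[simp] theorem gy : g * y = x := QuaternionAlgebra.ext (by decide +kernel) (by decide +kernel)
  (by decide +kernel) (by decide +kernel)
@[simp] theorem xg : x * g = -y := QuaternionAlgebra.ext (by decide +kernel) (by decide +kernel)
  (by decide +kernel) (by decide +kernel)
@[simp] theorem xx : x * x = 0 := QuaternionAlgebra.ext (by decide +kernel) (by decide +kernel)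
  (by decide +kernel) (by decide +kernel)
@[simp] theorem xy : x * y = 0 := QuaternionAlgebra.ext (by decide +kernel) (by decide +kernel)
  (by decide +kernel) (by decide +kernel)
@[simp] theorem yg : y * g = -x := QuaternionAlgebra.ext (by decide +kernel) (by decide +kernel)
  (by decide +kernel) (by decide +kernel)
@[simp] theorem yx : y * x = 0 := QuaternionAlgebra.ext (by decide +kernel) (by decide +kernel)
  (by decide +kernel) (by decide +kernel)
@[simp] theorem yy : y * y = 0 := QuaternionAlgebra.ext (by decide +kernel) (by decide +kernel)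
  (by decide +kernel) (by decide +kernel)

noncomputable def bs : Module.Basis (Fin 4) ℚ S := QuaternionAlgebra.basisOneIJK 1 0 0

theorem bs_eq : ∀ i, bs i = ![1, g, x, y] i := fun i => by
  apply bs.repr.injective
  rw [bs.repr_self]
  ext j
  fin_cases i <;> fin_cases j <;> simp [bs, g, x, y] <;> rfl

theorem lin_ext {M : Type} [AddCommGroup M] [Module ℚ M] {f f' : S →ₗ[ℚ] M} (h1 : f 1 = f' 1)
    (h2 : f g = f' g) (h3 : f x = f' x) (h4 : f y = f' y) : f = f' :=
  bs.ext fun i => by rw [bs_eq]; fin_cases i <;> assumption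

theorem alg_ext {B : Type} [Ring B] [Algebra ℚ B] {f f' : S →ₐ[ℚ] B} (h2 : f g = f' g)
    (h3 : f x = f' x) : f = f' := QuaternionAlgebra.hom_ext h2 h3

noncomputable def D : S →ₐ[ℚ] S ⊗[ℚ] S := QuaternionAlgebra.lift
  { i := g ⊗ₜ g, j := x ⊗ₜ 1 + g ⊗ₜ x, k := y ⊗ₜ g + 1 ⊗ₜ y
    i_mul_i := by simp [Algebra.TensorProduct.one_def]
    j_mul_j := by simp [mul_add, add_mul, neg_tmul]
    i_mul_j := by simp [mul_add]
    j_mul_i := by simp [add_mul, neg_tmul, tmul_neg, add_comm] }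

noncomputable def E : S →ₐ[ℚ] ℚ := QuaternionAlgebra.lift
  { i := 1, j := 0, k := 0, i_mul_i := by simp, j_mul_j := by simp, i_mul_j := by simp,
    j_mul_i := by simp }

theorem lift_g {B : Type} [Ring B] [Algebra ℚ B] (q : QuaternionAlgebra.Basis B (1 : ℚ) 0 0) :
    QuaternionAlgebra.lift q g = q.i ∧ QuaternionAlgebra.lift q x = q.j :=
  ⟨by change q.lift ⟨0, 1, 0, 0⟩ = _; simp [QuaternionAlgebra.Basis.lift],
    by change q.lift ⟨0, 0, 1, 0⟩ = _; simp [QuaternionAlgebra.Basis.lift]⟩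

@[simp] theorem Dg : D g = g ⊗ₜ g := (lift_g _).1
@[simp] theorem Dx : D x = x ⊗ₜ 1 + g ⊗ₜ x := (lift_g _).2
@[simp] theorem Dy : D y = y ⊗ₜ g + 1 ⊗ₜ y := by rw [← gx, map_mul]; simp [mul_add]
@[simp] theorem Eg : E g = 1 := by
  change algebraMap ℚ (ℚ) 0 + (1 : ℚ) • (_ : ℚ) + (0 : ℚ) • (_ : ℚ) + (0 : ℚ) • (_ : ℚ) = _
  simp
@[simp] theorem Ex : E x = 0 := by
  change algebraMap ℚ (ℚ) 0 + (0 : ℚ) • (_ : ℚ) + (1 : ℚ) • (_ : ℚ) + (0 : ℚ) • (_ : ℚ) = _
  simp
@[simp] theorem Ey : E y = 0 := by rw [← gx, map_mul]; simp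

noncomputable instance : Bialgebra ℚ S := Bialgebra.ofAlgHom D E
  (alg_ext (by simp) (by simp [add_tmul, tmul_add, add_assoc, Algebra.TensorProduct.one_def]))
  (alg_ext (by simp) (by simp)) (alg_ext (by simp) (by simp))

@[simp] theorem comul_eq (a : S) : comul (R := ℚ) a = D a := rfl
@[simp] theorem counit_eq (a : S) : counit (R := ℚ) a = E a := rfl

section
variable {M : Type} [AddCommGroup M] [Module ℚ M] (a b c d : M)
noncomputable def cs : S →ₗ[ℚ] M := bs.constr ℚ ![a, b, c, d]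
@[simp] theorem cs1 : cs a b c d 1 = a := by
  have := bs.constr_basis ℚ ![a, b, c, d] 0; rw [bs_eq] at this; exact this
@[simp] theorem csg : cs a b c d g = b := by
  have := bs.constr_basis ℚ ![a, b, c, d] 1; rw [bs_eq] at this; exact this
@[simp] theorem csx : cs a b c d x = c := by
  have := bs.constr_basis ℚ ![a, b, c, d] 2; rw [bs_eq] at this; exact this
@[simp] theorem csy : cs a b c d y = d := by
  have := bs.constr_basis ℚ ![a, b, c, d] 3; rw [bs_eq] at this; exact this
end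

noncomputable instance : HopfAlgebra ℚ S where
  antipode := cs 1 g (-y) x
  mul_antipode_rTensor_comul := by
    apply lin_ext <;> simp [Algebra.TensorProduct.one_def]
  mul_antipode_lTensor_comul := by
    apply lin_ext <;> simp [Algebra.TensorProduct.one_def]

noncomputable def s : S ⊗[ℚ] S →ₗ[ℚ] ℚ :=
  TensorProduct.lift (cs (cs 1 1 0 0) (cs 1 1 1 (-1)) (cs 0 1 (-1) 0) (cs 0 1 0 0))
noncomputable def t : S ⊗[ℚ] S →ₗ[ℚ] ℚ :=
  TensorProduct.lift (cs (cs 1 1 0 0) (cs 1 1 (-1) 1) (cs 0 (-1) 1 (-1)) (cs 0 (-1) 1 0))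

theorem ind {p : S → Prop} (h1 : p 1) (h2 : p g) (h3 : p x) (h4 : p y)
    (ha : ∀ a b, p a → p b → p (a + b)) (hs : ∀ (c : ℚ) a, p a → p (c • a)) (a : S) : p a := by
  rw [← bs.sum_repr a, Fin.sum_univ_four]
  simp only [bs_eq]
  exact ha _ _ (ha _ _ (ha _ _ (hs _ _ h1) (hs _ _ h2)) (hs _ _ h3)) (hs _ _ h4)

theorem cocycle : IsCocycle s t := by
  refine ⟨?_, ?_, fun h a l => ?_, fun h => ?_⟩
  · refine TensorProduct.ext (lin_ext ?_ ?_ ?_ ?_) <;> apply lin_ext <;>
      simp [cv, s, t, Algebra.TensorProduct.one_def, add_tmul, tmul_add]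
  · refine TensorProduct.ext (lin_ext ?_ ?_ ?_ ?_) <;> apply lin_ext <;>
      simp [cv, s, t, Algebra.TensorProduct.one_def, add_tmul, tmul_add]
  · induction h using ind with
    | ha a b h1 h2 => simp_all [cv, add_tmul, LinearMap.add_comp, LinearMap.comp_add,
        TensorProduct.map_add_right]
    | hs c a h1 => simp_all [cv, ← smul_tmul', LinearMap.smul_comp, LinearMap.comp_smul,
        TensorProduct.map_smul_right]
    | _ =>
      induction l using ind with
      | ha a b h1 h2 => simp_all [cv, tmul_add, LinearMap.add_comp, LinearMap.comp_add,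
          TensorProduct.map_add_right]
      | hs c a h1 => simp_all [cv, tmul_smul, LinearMap.smul_comp, LinearMap.comp_smul,
          TensorProduct.map_smul_right]
      | _ =>
        induction a using ind with
        | ha a b h1 h2 => simp only [tmul_add, add_tmul, map_add, h1, h2]
        | hs c a h1 => simp only [tmul_smul, ← smul_tmul', map_smul, h1]
        | _ => simp [cv, s, Algebra.TensorProduct.one_def, add_tmul, tmul_add]
  · induction h using ind with
    | ha a b h1 h2 => simp only [tmul_add, add_tmul, map_add, h1, h2, and_self]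
    | hs c a h1 => simp only [tmul_smul, ← smul_tmul', map_smul, h1, and_self]
    | _ => simp [s]

theorem result : ∃ (k : Type) (_ : Field k) (H : Type) (_ : Ring H) (_ : HopfAlgebra k H)
    (s t : H ⊗[k] H →ₗ[k] k), IsCocycle s t ∧
      ∀ (A : Type) [Ring A] [HopfAlgebra k A] (act : H ⊗[k] A →ₗ[k] H) (r : H →ₗ[k] A),
        (∀ h, act (h ⊗ₜ 1) = h) → r 1 = 1 → Cocentral r →
          ∃ h g, doiMul s t h g ≠ defMul act r h g := by
  refine ⟨ℚ, inferInstance, S, inferInstance, inferInstance, s, t, cocycle,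
    fun A _ _ act r h1 h2 h3 => ⟨g, x, fun h => ?_⟩⟩
  have e := fun v : S →ₗ[ℚ] ℚ =>
    congrArg (fun z => TensorProduct.rid ℚ A (v.lTensor A z)) (h3 x)
  have e1 := e (cs 1 0 0 0)
  have e2 := e (cs 0 0 1 0)
  simp [h2] at e1 e2
  have := congrArg (cs 0 1 0 (0 : ℚ)) h
  simp [doiMul, defMul, cv, s, t, Algebra.TensorProduct.one_def, add_tmul,
    tmul_add, e1, e2, h1] at this

end Pool.Agent.Results.MP_16410b_al.DoiCex
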